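import Pool.Agent.Helper90.Gss.Final

/-!
# The least `Ψ_gss`-large cardinal can be singular

The language `LSet` of set theory has one binary relation symbol, and every `A : ZFSet` is a
structure for it with true membership (`Pool.Agent.Helper90.Gss.setStructure`).
`↥A ↪ₑ[LSet] ↥B` is the type of elementary embeddings.
-/

open FirstOrder FirstOrder.Language

universe u

namespace Pool.Agent.Results.MP_ce9e93_lc.LeastGssSingular

open ZFSet Ordinal Cardinal Pool.Agent.Helper90.Gss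

/-- `A` is closed under basic set operations: pairs, products and intersections (both binary
intersections and intersections of an element). -/
def BasicClosed (A : ZFSet.{u}) : Prop :=
  ∀ x ∈ A, ∀ y ∈ A, {x, y} ∈ A ∧ ZFSet.prod x y ∈ A ∧ x ∩ y ∈ A ∧ ZFSet.sInter x ∈ A

/-- The ordinal `μ` is a cardinal in `N`: no element of `N` is a bijection from a smaller
ordinal onto `μ`. -/
def IsCardinalIn (N : ZFSet.{u}) (μ : Ordinal.{u}) : Prop :=
  ¬ ∃ f ∈ N, ∃ α < μ, IsFunc α.toZFSet μ.toZFSet f ∧ ∀ y ∈ μ.toZFSet, ∃! x, pair x y ∈ f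

/-- The tuple `⟨N, M, μ, ν, ρ⟩` is suitable. -/
structure Suitable (N M : ZFSet.{u}) (μ ν ρ : Ordinal.{u}) : Prop where
  subset : M ⊆ N
  transitive_N : N.IsTransitive
  transitive_M : M.IsTransitive
  closed_N : BasicClosed N
  closed_M : BasicClosed M
  ordinals : ∃ o : Ordinal.{u}, Order.IsSuccLimit o ∧
    ∀ α : Ordinal.{u}, (α.toZFSet ∈ M ↔ α < o) ∧ (α.toZFSet ∈ N ↔ α < o)
  limit_μ : Order.IsSuccLimit μ
  limit_ν : Order.IsSuccLimit ν
  limit_ρ : Order.IsSuccLimit ρ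
  μ_lt_ν : μ < ν
  ν_lt_ρ : ν < ρ
  ρ_mem : ρ.toZFSet ∈ M
  cardinal : IsCardinalIn N μ

/-- The formula `Ψ_gss`. -/
def PsiGss (N M : ZFSet.{u}) (μ ν ρ : Ordinal.{u}) : Prop :=
  Suitable N M μ ν ρ ∧ N ∩ V_ ν ⊆ M

/-- The elementary embedding `j` sends the ordinal `α` to the ordinal `β`. -/
def Sends {A B : ZFSet.{u}} (j : ↥A ↪ₑ[LSet] ↥B) (α β : Ordinal.{u}) : Prop :=
  ∃ h : α.toZFSet ∈ A, ((j ⟨α.toZFSet, h⟩ : ↥B) : ZFSet.{u}) = β.toZFSet

/-- The cardinal `κ` of `V_Ω` is `Ψ`-large in `V_Ω`. -/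
def PsiLargeIn (Ω : Ordinal.{u})
    (Ψ : ZFSet.{u} → ZFSet.{u} → Ordinal.{u} → Ordinal.{u} → Ordinal.{u} → Prop)
    (κ : Cardinal.{u}) : Prop :=
  κ.ord < Ω ∧ ∀ η < Ω, ∀ θ < Ω, Order.IsSuccLimit η → Order.IsSuccLimit θ →
    κ.ord < η → η < θ → ∀ ξ < Ω, ∃ l : Cardinal.{u}, ξ ≤ l.ord ∧ l.ord < Ω ∧ η ≤ l.ord ∧
      ∃ M ∈ V_ Ω, M.IsTransitive ∧ ∃ j : ↥(V_ (Order.succ θ)) ↪ₑ[LSet] ↥M,
        ∃ κ' η' θ' : Ordinal.{u}, Sends j κ.ord κ' ∧ Sends j η η' ∧ Sends j θ θ' ∧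
          l.ord < κ' ∧ Ψ (V_ θ') (M ∩ V_ θ') l.ord κ' η'

/-- There is a (local) `2`-superstrong embedding: an elementary `j : V_ϑ → M` with `M` transitive,
critical point `μ`, and `V_{j(j(μ))} ⊆ M`, where `j(j(μ)) ≤ ϑ`. -/
def ExistsTwoSuperstrong : Prop :=
  ∃ (μ δ δ' ϑ : Ordinal.{u}) (M : ZFSet.{u}), M.IsTransitive ∧
    ∃ j : ↥(V_ ϑ) ↪ₑ[LSet] ↥M, (∀ α < μ, Sends j α α) ∧ Sends j μ δ ∧ μ ≠ δ ∧
      Sends j δ δ' ∧ δ' ≤ ϑ ∧ V_ δ' ⊆ M

/-! ### Proofs -/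

/-- Extension of an elementary embedding by zero to all sets. -/
noncomputable def extend {A B : ZFSet.{u}} (j : ↥A ↪ₑ[LSet] ↥B) (x : ZFSet.{u}) : ZFSet.{u} := by
  classical
  exact if h : x ∈ A then (j ⟨x, h⟩ : ↥B) else ∅

theorem extend_of_mem {A B : ZFSet.{u}} (j : ↥A ↪ₑ[LSet] ↥B) {x : ZFSet.{u}} (h : x ∈ A) :
    extend j x = (j ⟨x, h⟩ : ↥B) := by
  unfold extend
  exact dif_pos h

theorem isElemMap_extend {A B : ZFSet.{u}} (j : ↥A ↪ₑ[LSet] ↥B) : IsElemMap A B (extend j) :=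
  ⟨j, fun x => (extend_of_mem j x.2).symm⟩

theorem Sends.oMap_eq {A B : ZFSet.{u}} {j : ↥A ↪ₑ[LSet] ↥B} {α β : Ordinal.{u}}
    (h : Sends j α β) : oMap (extend j) α = β := by
  obtain ⟨h1, h2⟩ := h
  rw [oMap, extend_of_mem j h1, h2, rank_toZFSet]

theorem exists_twoSS (h : ExistsTwoSuperstrong.{u}) :
    ∃ (ϑ μ : Ordinal.{u}) (M : ZFSet.{u}) (J : ZFSet.{u} → ZFSet.{u}), TwoSS ϑ μ M J := by
  obtain ⟨μ, δ, δ', ϑ, M, hM, j, hfix, hμ, hne, hδ, hle, hsub⟩ := h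
  have E : Emb ϑ M (extend j) := ⟨hM, isElemMap_extend j⟩
  have hμϑ : μ < ϑ := toZFSet_mem_vonNeumann.1 hμ.1
  have hδϑ : δ < ϑ := toZFSet_mem_vonNeumann.1 hδ.1
  refine ⟨ϑ, μ, M, extend j, E, fun α hα => (hfix α hα).oMap_eq, ?_, ?_, ?_, ?_⟩
  · have h1 := E.le_oMap hμϑ
    rw [hμ.oMap_eq] at h1 ⊢
    exact lt_of_le_of_ne h1 hne
  · rw [hμ.oMap_eq]
    exact hδϑ
  · rw [hμ.oMap_eq, hδ.oMap_eq]
    exact hle
  · rw [hμ.oMap_eq, hδ.oMap_eq]
    exact hsub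

theorem pz_of_psiLargeIn {Ω : Ordinal.{u}} (hΩ : IsIna Ω) {κ : Cardinal.{u}}
    (h : PsiLargeIn Ω PsiGss κ) : Pz Ω κ.ord := by
  intro θ hθ hθl hκθ l hl
  obtain ⟨l', h1, h2, h3, M, hM, hMt, j, κ', η', θ', hκ', hη', hθ', hl', hΨ⟩ :=
    h.2 θ hθ (θ + ω) (hΩ.add_omega_lt hθ) hθl (isSuccLimit_add θ isSuccLimit_omega0) hκθ
      (lt_add_of_pos_right θ omega0_pos) l hl
  have hθθ : θ < θ + ω := lt_add_of_pos_right θ omega0_pos
  have E : Emb (Order.succ (θ + ω)) M (extend j) := ⟨hMt, isElemMap_extend j⟩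
  have hκθ2 : κ.ord < θ + ω := hκθ.trans hθθ
  have hκθ' : κ' < θ' := by
    rw [← hκ'.oMap_eq, ← hθ'.oMap_eq]
    exact (E.oMap_lt_iff (hκθ2.trans (Order.lt_succ _)) (Order.lt_succ _)).2 hκθ2
  have hV : V_ (oMap (extend j) κ.ord) ⊆ M := by
    rw [hκ'.oMap_eq]
    intro z hz
    have hz' : z ∈ V_ θ' ∩ V_ κ' :=
      mem_inter.2 ⟨vonNeumann_subset_of_le hκθ'.le hz, hz⟩
    exact (mem_inter.1 (hΨ.2 hz')).1
  have h4 := E.restrict_ER hM hκθ2 hV hθl hθθ (hΩ.add_omega_lt hθ) le_rfl hκθ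
  refine ⟨oMap (extend j) κ.ord, ?_, ?_, h4⟩
  · have h5 : (oMap (extend j) κ.ord).toZFSet ∈ M :=
      E.oMap_mem (hκθ2.trans (Order.lt_succ _))
    exact toZFSet_mem_vonNeumann.1 ((isTransitive_vonNeumann _).mem_trans h5 hM)
  · rw [hκ'.oMap_eq]
    exact h1.trans_lt hl'

theorem isSInter_dl {α : Type} (i j : α) : Dl.{u} (fun _ s => s i = ZFSet.sInter (s j)) := by
  have h1 : Dl.{u} (α := α) (fun _ s => (s j = ∅ ∧ s i = ∅) ∨ (s j ≠ ∅ ∧
      (∀ z ∈ s i, ∀ y ∈ s j, z ∈ y) ∧ ∀ y ∈ s j, ∀ z ∈ y, (∀ w ∈ s j, z ∈ w) → z ∈ s i)) := by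
    refine ((Dl.isEmpty j).and (Dl.isEmpty i)).or ((Dl.isEmpty j).not.and (Dl.and ?_ ?_))
    · exact Dl.ball (P := fun _ z s => ∀ y ∈ s j, z ∈ y) i
        (Dl.ball (P := fun _ y s => s none ∈ y) (some j) (Dl.mem (some none) none))
    · refine Dl.ball (P := fun _ y s => ∀ z ∈ y, (∀ w ∈ s j, z ∈ w) → z ∈ s i) j ?_
      refine Dl.ball (P := fun _ z s => (∀ w ∈ s (some j), z ∈ w) → z ∈ s (some i)) none ?_
      exact (Dl.ball (P := fun _ w s => s none ∈ w) (some (some j))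
        (Dl.mem (some none) none)).imp (Dl.mem none (some (some i)))
  refine h1.congr fun U _ s _ => ?_
  constructor
  · rintro (⟨h2, h3⟩ | ⟨h2, h3, h4⟩)
    · rw [h2, h3, sInter_empty]
    · have hne : (s j).Nonempty := (nonempty_def _).2 (by
        by_contra hcon
        push Not at hcon
        exact h2 ((ZFSet.eq_empty _).2 hcon))
      ext z
      rw [mem_sInter hne]
      constructor
      · intro hz
        exact h3 z hz
      · intro hz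
        obtain ⟨y, hy⟩ := (nonempty_def _).1 hne
        exact h4 y hy z (hz y hy) hz
  · intro h
    by_cases h2 : s j = ∅
    · left
      refine ⟨h2, ?_⟩
      rw [h, h2, sInter_empty]
    · right
      have hne : (s j).Nonempty := (nonempty_def _).2 (by
        by_contra hcon
        push Not at hcon
        exact h2 ((ZFSet.eq_empty _).2 hcon))
      refine ⟨h2, fun z hz y hy => ?_, fun y hy z hz hw => ?_⟩
      · rw [h] at hz
        exact (mem_sInter hne).1 hz y hy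
      · rw [h]
        exact (mem_sInter hne).2 hw

theorem basicClosed_dl {α : Type} (i : α) : Dl.{u} (fun _ s => BasicClosed (s i)) := by
  have h : Dl.{u} (α := α) (fun _ s => ∀ x ∈ s i, ∀ y ∈ s i, (∃ z ∈ s i, z = {x, y}) ∧
      (∃ z ∈ s i, z = ZFSet.prod x y) ∧ (∃ z ∈ s i, z = x ∩ y) ∧
      (∃ z ∈ s i, z = ZFSet.sInter x)) := by
    refine Dl.ball (P := fun _ x s => ∀ y ∈ s i, (∃ z ∈ s i, z = {x, y}) ∧
      (∃ z ∈ s i, z = ZFSet.prod x y) ∧ (∃ z ∈ s i, z = x ∩ y) ∧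
      (∃ z ∈ s i, z = ZFSet.sInter x)) i ?_
    refine Dl.ball (P := fun _ y s => (∃ z ∈ s (some i), z = {s none, y}) ∧
      (∃ z ∈ s (some i), z = ZFSet.prod (s none) y) ∧ (∃ z ∈ s (some i), z = s none ∩ y) ∧
      (∃ z ∈ s (some i), z = ZFSet.sInter (s none))) (some i) ?_
    refine Dl.and ?_ (Dl.and ?_ (Dl.and ?_ ?_))
    · exact Dl.bex (P := fun _ z s => z = {s (some none), s none}) (some (some i))
        (Dl.isUPair _ _ _)
    · exact Dl.bex (P := fun _ z s => z = ZFSet.prod (s (some none)) (s none)) (some (some i))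
        (Dl.isProd _ _ _)
    · exact Dl.bex (P := fun _ z s => z = s (some none) ∩ s none) (some (some i))
        (Dl.isInter _ _ _)
    · exact Dl.bex (P := fun _ z s => z = ZFSet.sInter (s (some none))) (some (some i))
        (isSInter_dl _ _)
  refine h.congr fun U _ s _ => ?_
  unfold BasicClosed
  refine forall_congr' fun x => forall_congr' fun _ => forall_congr' fun y =>
    forall_congr' fun _ => ?_
  simp

theorem basicClosed_vonNeumann {θ : Ordinal.{u}} (hθ : Order.IsSuccLimit θ) :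
    BasicClosed (V_ θ) := by
  intro x hx y hy
  refine ⟨?_, prod_mem_vonNeumann hθ hx hy, mem_vonNeumann_of_subset
    (fun z hz => (mem_inter.1 hz).1) hx, ?_⟩
  · rw [mem_vonNeumann] at *
    rw [rank_pair]
    exact max_lt (hθ.succ_lt hx) (hθ.succ_lt hy)
  · refine mem_vonNeumann_of_subset (y := ⋃₀ x) (fun z hz => ?_) ?_
    · unfold ZFSet.sInter at hz
      exact (mem_sep.1 hz).1
    · rw [mem_vonNeumann] at *
      exact (rank_sUnion_le x).trans_lt hx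

theorem isCardinalIn_ord (N : ZFSet.{u}) (l : Cardinal.{u}) : IsCardinalIn N l.ord := by
  rintro ⟨f, _, α, hα, hf, hb⟩
  have h1 : #(Set.Iio l.ord) ≤ #(Set.Iio α) := by
    refine Cardinal.mk_le_of_surjective (f := fun a : Set.Iio α =>
      (⟨rank (app f a.1.toZFSet), ?_⟩ : Set.Iio l.ord)) ?_
    · have := app_mem hf (toZFSet_mem_toZFSet_iff.2 a.2)
      obtain ⟨b, hb, hb'⟩ := mem_toZFSet_iff.1 this
      rw [← hb', rank_toZFSet]
      exact hb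
    · rintro ⟨b, hb'⟩
      obtain ⟨x, hxb, _⟩ := hb _ (toZFSet_mem_toZFSet_iff.2 hb')
      have hx : x ∈ α.toZFSet := (pair_mem_prod.1 (hf.1 hxb)).1
      obtain ⟨a, ha, rfl⟩ := mem_toZFSet_iff.1 hx
      refine ⟨⟨a, ha⟩, Subtype.ext ?_⟩
      show rank (app f a.toZFSet) = b
      rw [app_eq hf hx hxb, rank_toZFSet]
  rw [Cardinal.mk_Iio_ordinal, Cardinal.mk_Iio_ordinal, Cardinal.lift_le, Cardinal.card_ord] at h1
  exact absurd (Cardinal.lt_ord.1 hα) (not_lt.2 h1)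

theorem psiLargeIn_of_pz {Ω : Ordinal.{u}} (hΩ : IsIna Ω) {κ : Cardinal.{u}} (hκ : κ.ord < Ω)
    (h : Pz Ω κ.ord) : PsiLargeIn Ω PsiGss κ := by
  refine ⟨hκ, fun η hη θ hθ hηl hθl hκη hηθ ξ hξ => ?_⟩
  obtain ⟨c, hc, rfl⟩ := hΩ.exists_cardinal
  have hm : max ξ η < c.ord := max_lt hξ hη
  set l : Cardinal.{u} := Order.succ (max ξ η).card with hldef
  have hlΩ : l.ord < c.ord := by
    rw [Cardinal.ord_lt_ord]
    exact hc.isSuccLimit.succ_lt (Cardinal.lt_ord.1 hm)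
  have hml : max ξ η < l.ord := Cardinal.lt_ord.2 (Order.lt_succ _)
  have hκθ : κ.ord < θ := hκη.trans hηθ
  have hωκ : ω ≤ κ.ord := h.omega_le hΩ
  have hκlim : Order.IsSuccLimit κ.ord := by
    refine Cardinal.isSuccLimit_ord ?_
    rwa [← Cardinal.ord_le_ord, ord_aleph0]
  obtain ⟨τ, hτΩ, hlτ, _, _, _, N, hN, j, E, hj, hV, _⟩ := h θ hθ hθl hκθ l.ord hlΩ
  obtain ⟨f, hf⟩ := E.elem
  have hθs : θ < Order.succ θ := Order.lt_succ θ
  have hηs : η < Order.succ θ := hηθ.trans hθs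
  have hκs : κ.ord < Order.succ θ := hκθ.trans hθs
  have hS : ∀ α < Order.succ θ, Sends f α (oMap j α) := fun α hα =>
    ⟨toZFSet_mem_vonNeumann.2 hα, by
      rw [hf ⟨α.toZFSet, toZFSet_mem_vonNeumann.2 hα⟩, ← E.map_toZFSet hα]⟩
  refine ⟨l, (le_max_left ξ η).trans hml.le, hlΩ, (le_max_right ξ η).trans hml.le, N, hN,
    E.trans, f, τ, oMap j η, oMap j θ, by rw [← hj]; exact hS _ hκs, hS _ hηs, hS _ hθs, hlτ, ?_⟩
  have hτη : τ < oMap j η := by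
    rw [← hj]
    exact (E.oMap_lt_iff hκs hηs).2 hκη
  have hηθ' : oMap j η < oMap j θ := (E.oMap_lt_iff hηs hθs).2 hηθ
  have hθ'lim : Order.IsSuccLimit (oMap j θ) := (E.isSuccLimit_oMap_iff hθs).2 hθl
  have hinter : N ∩ V_ (oMap j θ) = j (V_ θ) := by
    ext z
    rw [E.mem_map_vonNeumann hθs, mem_inter, mem_vonNeumann]
  have hord : ∀ α : Ordinal.{u}, α.toZFSet ∈ N ∩ V_ (oMap j θ) ↔ α < oMap j θ := by
    intro α
    rw [mem_inter, toZFSet_mem_vonNeumann]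
    refine ⟨fun h => h.2, fun h => ⟨E.trans.mem_trans (toZFSet_mem_toZFSet_iff.2 h)
      (E.oMap_mem hθs), h⟩⟩
  refine ⟨⟨fun z hz => (mem_inter.1 hz).2, isTransitive_vonNeumann _,
    IsTransitive.inter E.trans (isTransitive_vonNeumann _),
    basicClosed_vonNeumann hθ'lim, ?_, ⟨oMap j θ, hθ'lim, fun α =>
      ⟨hord α, toZFSet_mem_vonNeumann⟩⟩, ?_, ?_, (E.isSuccLimit_oMap_iff hηs).2 hηl, hlτ, hτη,
    (hord _).2 hηθ', isCardinalIn_ord _ l⟩, ?_⟩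
  · rw [hinter]
    exact (E.transfer (basicClosed_dl (0 : Fin 1)) ![V_ θ]
      (by simp)).1 (basicClosed_vonNeumann hθl)
  · refine Cardinal.isSuccLimit_ord ?_
    rw [← Cardinal.ord_le_ord, ord_aleph0]
    exact (hωκ.trans hκη.le).trans ((le_max_right ξ η).trans hml.le)
  · rw [← hj]
    exact (E.isSuccLimit_oMap_iff hκs).2 hκlim
  · intro z hz
    obtain ⟨hz1, hz2⟩ := mem_inter.1 hz
    exact mem_inter.2 ⟨hV hz2, hz1⟩

/-- **Main theorem.** If there is a `2`-superstrong embedding, then there is an inaccessible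
cardinal `c` such that in `V_c` the least `Ψ_gss`-large cardinal exists and is singular. -/
theorem result (h : ExistsTwoSuperstrong.{u}) :
    ∃ c : Cardinal.{u}, c.IsInaccessible ∧ ∃ κ : Cardinal.{u},
      IsLeast {k : Cardinal.{u} | PsiLargeIn c.ord PsiGss k} κ ∧ κ.IsSingular := by
  obtain ⟨ϑ, μ, M, J, hJ⟩ := exists_twoSS h
  obtain ⟨Ω, hΩ, κ, hκ, hP, hmin, hreg⟩ := hJ.core
  have hκc : κ.card.ord = κ := by
    rcases (ord_card_le κ).eq_or_lt with h1 | h1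
    · exact h1
    · exact absurd (hP.ord_card hΩ hκ) (hmin _ h1)
  obtain ⟨c, hc, rfl⟩ := hΩ.exists_cardinal
  refine ⟨c, hc, κ.card, ⟨?_, ?_⟩, ?_⟩
  · exact psiLargeIn_of_pz hΩ (by rw [hκc]; exact hκ) (by rw [hκc]; exact hP)
  · intro k hk
    rw [← Cardinal.ord_le_ord, hκc]
    by_contra hcon
    rw [not_le] at hcon
    exact hmin _ hcon (pz_of_psiLargeIn hΩ hk)
  · refine Cardinal.IsSingular.of_not_isRegular ?_ fun hr => hreg ?_
    · rw [← Cardinal.ord_le_ord, hκc, ord_aleph0]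
      exact hP.omega_le hΩ
    · rw [← hκc]
      exact reg_of_isRegular hr

end Pool.Agent.Results.MP_ce9e93_lc.LeastGssSingular
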